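import Pool.Agent.H46R3.DG.Stmts

/-! Large deviations for the number of occurrences of a digit in words. -/

set_option autoImplicit false

namespace Pool.Agent.H97R3.DG

open Finset
open Pool.Agent.H46R3.DG

theorem sum_mul_range (q M : ℕ) (f : ℕ → ℝ) :
    ∑ w ∈ range (q * M), f w = ∑ w' ∈ range M, ∑ d ∈ range q, f (q * w' + d) := by
  induction M with
  | zero => simp
  | succ M ih => rw [Nat.mul_succ, sum_range_add, ih, sum_range_succ]

theorem cnt_succ (q w l b : ℕ) :
    cnt q w (l + 1) b = (if w % q = b then 1 else 0) + cnt q (w / q) l b := by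
  unfold cnt
  rw [card_filter, card_filter, sum_range_succ']
  rw [add_comm]
  congr 1
  · simp
  · refine sum_congr rfl fun i _ => ?_
    rw [Nat.div_div_eq_div_mul, pow_succ']

theorem cnt_step (q w' d l b : ℕ) (hd : d < q) :
    cnt q (q * w' + d) (l + 1) b = (if d = b then 1 else 0) + cnt q w' l b := by
  rw [cnt_succ]
  have hq : 0 < q := by omega
  rw [Nat.mul_add_mod, Nat.mod_eq_of_lt hd, Nat.mul_add_div hq, Nat.div_eq_of_lt hd, add_zero]

theorem sum_digit (q b : ℕ) (hb : b < q) (t : ℝ) :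
    ∑ d ∈ range q, t ^ (if d = b then 1 else 0) = (q : ℝ) - 1 + t := by
  have h : ∀ d ∈ range q, t ^ (if d = b then 1 else 0) = 1 + (if d = b then t - 1 else 0) := by
    intro d _
    by_cases hd : d = b <;> simp [hd]
  rw [sum_congr rfl h, sum_add_distrib, sum_ite_eq' (range q) b, if_pos (mem_range.2 hb)]
  simp
  ring

theorem mgf (q b : ℕ) (hb : b < q) (t : ℝ) (l : ℕ) :
    ∑ w ∈ range (q ^ l), t ^ cnt q w l b = ((q : ℝ) - 1 + t) ^ l := by
  induction l with
  | zero => simp [cnt]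
  | succ l ih =>
    rw [pow_succ', sum_mul_range]
    have h : ∀ w' ∈ range (q ^ l), ∑ d ∈ range q, t ^ cnt q (q * w' + d) (l + 1) b =
        ((q : ℝ) - 1 + t) * t ^ cnt q w' l b := by
      intro w' _
      rw [← sum_digit q b hb t, sum_mul]
      refine sum_congr rfl fun d hd => ?_
      rw [cnt_step q w' d l b (mem_range.1 hd), pow_add]
    rw [sum_congr rfl h, ← mul_sum, ih, pow_succ']

theorem tail (q b : ℕ) (hb : b < q) (t c : ℝ) (ht : 0 < t) (l : ℕ) (P : Finset ℕ)
    (hP : P ⊆ range (q ^ l))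
    (h : ∀ w ∈ P, c * l * Real.log t ≤ (cnt q w l b : ℝ) * Real.log t) :
    (P.card : ℝ) ≤ Real.exp ((Real.log ((q : ℝ) - 1 + t) - c * Real.log t) * l) := by
  have hq : (1 : ℝ) ≤ q := by exact_mod_cast (show 1 ≤ q by omega)
  have hpos : 0 < (q : ℝ) - 1 + t := by linarith
  have h1 : (P.card : ℝ) * Real.exp (c * l * Real.log t) ≤ ((q : ℝ) - 1 + t) ^ l := by
    rw [← mgf q b hb t l]
    calc (P.card : ℝ) * Real.exp (c * l * Real.log t) = ∑ _w ∈ P, Real.exp (c * l * Real.log t) := by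
          rw [sum_const, nsmul_eq_mul]
      _ ≤ ∑ w ∈ P, t ^ cnt q w l b := by
          refine sum_le_sum fun w hw => ?_
          have h2 : t ^ cnt q w l b = Real.exp ((cnt q w l b : ℝ) * Real.log t) := by
            rw [Real.exp_nat_mul, Real.exp_log ht]
          rw [h2]
          exact Real.exp_le_exp.2 (h w hw)
      _ ≤ ∑ w ∈ range (q ^ l), t ^ cnt q w l b :=
          sum_le_sum_of_subset_of_nonneg hP fun w _ _ => by positivity
  have h3 : ((q : ℝ) - 1 + t) ^ l = Real.exp (l * Real.log ((q : ℝ) - 1 + t)) := by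
    rw [Real.exp_nat_mul, Real.exp_log hpos]
  rw [h3] at h1
  have h4 : (P.card : ℝ) ≤ Real.exp (l * Real.log ((q : ℝ) - 1 + t)) *
      Real.exp (-(c * l * Real.log t)) := by
    rw [Real.exp_neg, ← div_eq_mul_inv, le_div_iff₀ (Real.exp_pos _)]
    exact h1
  rw [← Real.exp_add] at h4
  refine h4.trans (le_of_eq ?_)
  congr 1
  ring

theorem up_lt (q θ ε : ℝ) (hq : 0 < q) (hθ : 0 < θ) (h : θ < q * ε) :
    Real.log (q - 1 + (1 + θ)) - (1 / q + ε) * Real.log (1 + θ) < Real.log q := by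
  have hε : 0 < ε := by
    by_contra hc
    push Not at hc
    nlinarith
  have h1 : Real.log (q - 1 + (1 + θ)) = Real.log q + Real.log (1 + θ / q) := by
    rw [← Real.log_mul hq.ne' (by positivity)]
    congr 1
    field_simp
    ring
  have h2 : Real.log (1 + θ / q) ≤ θ / q := by
    have := Real.log_le_sub_one_of_pos (show 0 < 1 + θ / q by positivity)
    linarith
  have h3 : 1 - (1 + θ)⁻¹ ≤ Real.log (1 + θ) := Real.one_sub_inv_le_log_of_pos (by positivity)
  have h4 : θ / q < (1 / q + ε) * (1 - (1 + θ)⁻¹) := by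
    have h5 : (1 / q + ε) * (1 - (1 + θ)⁻¹) - θ / q = θ * (q * ε - θ) / (q * (1 + θ)) := by
      field_simp
      ring
    have h6 : 0 < θ * (q * ε - θ) / (q * (1 + θ)) := by
      apply div_pos
      · exact mul_pos hθ (by linarith)
      · positivity
    linarith
  have h7 : (1 / q + ε) * (1 - (1 + θ)⁻¹) ≤ (1 / q + ε) * Real.log (1 + θ) :=
    mul_le_mul_of_nonneg_left h3 (by positivity)
  linarith

theorem low_lt (q θ ε : ℝ) (hq : 1 < q) (hθ : 0 < θ) (hθ1 : θ < 1) (h : θ < q * ε) :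
    Real.log (q - 1 + (1 - θ)) - (1 / q - ε) * Real.log (1 - θ) < Real.log q := by
  have hq0 : 0 < q := by linarith
  have hε : 0 < ε := by
    by_contra hc
    push Not at hc
    nlinarith
  have hθq : θ / q < 1 := by rw [div_lt_one hq0]; linarith
  have h1 : Real.log (q - 1 + (1 - θ)) = Real.log q + Real.log (1 - θ / q) := by
    rw [← Real.log_mul hq0.ne' (by linarith)]
    congr 1
    field_simp
    ring
  have h2 : Real.log (1 - θ / q) ≤ -(θ / q) := by
    have := Real.log_le_sub_one_of_pos (show 0 < 1 - θ / q by linarith)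
    linarith
  have hθ' : 0 < 1 - θ := by linarith
  by_cases hc : 0 ≤ 1 / q - ε
  · have h3 : 1 - (1 - θ)⁻¹ ≤ Real.log (1 - θ) := Real.one_sub_inv_le_log_of_pos hθ'
    have h7 : (1 / q - ε) * (1 - (1 - θ)⁻¹) ≤ (1 / q - ε) * Real.log (1 - θ) :=
      mul_le_mul_of_nonneg_left h3 hc
    have h4 : -(θ / q) < (1 / q - ε) * (1 - (1 - θ)⁻¹) := by
      have h5 : (1 / q - ε) * (1 - (1 - θ)⁻¹) + θ / q = θ * (q * ε - θ) / (q * (1 - θ)) := by
        field_simp
        ring
      have h6 : 0 < θ * (q * ε - θ) / (q * (1 - θ)) := by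
        apply div_pos
        · exact mul_pos hθ (by linarith)
        · positivity
      linarith
    linarith
  · push Not at hc
    have h3 : Real.log (1 - θ) ≤ 0 := Real.log_nonpos hθ'.le (by linarith)
    have h4 : 0 ≤ (1 / q - ε) * Real.log (1 - θ) := mul_nonneg_of_nonpos_of_nonpos hc.le h3
    have h5 : 0 < θ / q := by positivity
    linarith

theorem taskG : TaskG := by
  intro q ε hq hε
  have hq2 : (2 : ℝ) ≤ q := by exact_mod_cast hq
  have hq0 : (0 : ℝ) < q := by linarith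
  set θ : ℝ := min (q * ε / 2) (1 / 2) with hθdef
  have hθ : 0 < θ := lt_min (by positivity) (by norm_num)
  have hθ1 : θ < 1 := lt_of_le_of_lt (min_le_right _ _) (by norm_num)
  have hθ2 : θ < q * ε := lt_of_le_of_lt (min_le_left _ _) (by
    have : 0 < q * ε := by positivity
    linarith)
  have hup := up_lt q θ ε hq0 hθ hθ2
  have hlow := low_lt q θ ε (by linarith) hθ hθ1 hθ2
  set L1 := Real.log ((q : ℝ) - 1 + (1 + θ)) - (1 / (q : ℝ) + ε) * Real.log (1 + θ) with hL1
  set L2 := Real.log ((q : ℝ) - 1 + (1 - θ)) - (1 / (q : ℝ) - ε) * Real.log (1 - θ) with hL2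
  set L := max L1 L2 with hL
  have hLlt : L < Real.log q := max_lt hup hlow
  have hlogq : 0 < Real.log q := Real.log_pos (by linarith)
  refine ⟨1 - L / Real.log q, 2, ?_, by norm_num, ?_⟩
  · rw [sub_pos, div_lt_one hlogq]
    exact hLlt
  intro l b hb
  have hrhs : (q : ℝ) ^ ((1 - (1 - L / Real.log q)) * (l : ℝ)) = Real.exp (L * l) := by
    rw [Real.rpow_def_of_pos hq0]
    congr 1
    field_simp
    ring
  rw [hrhs]
  set P1 := {w ∈ range (q ^ l) | (1 / (q : ℝ) + ε) * l ≤ (cnt q w l b : ℝ)} with hP1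
  set P2 := {w ∈ range (q ^ l) | (cnt q w l b : ℝ) ≤ (1 / (q : ℝ) - ε) * l} with hP2
  have hsub : {w ∈ range (q ^ l) | ε * l < |(cnt q w l b : ℝ) - (l : ℝ) / q|} ⊆ P1 ∪ P2 := by
    intro w hw
    rw [mem_filter] at hw
    rw [mem_union, hP1, hP2, mem_filter, mem_filter]
    have h0 : (1 / (q : ℝ)) * l = (l : ℝ) / q := by ring
    rcases lt_abs.1 hw.2 with h | h
    · left
      refine ⟨hw.1, ?_⟩
      rw [add_mul, h0]
      linarith
    · right
      refine ⟨hw.1, ?_⟩
      rw [sub_mul, h0]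
      linarith
  have hcard : ((#{w ∈ range (q ^ l) | ε * l < |(cnt q w l b : ℝ) - (l : ℝ) / q|} : ℕ) : ℝ) ≤
      (P1.card : ℝ) + (P2.card : ℝ) := by
    exact_mod_cast (card_le_card hsub).trans (card_union_le _ _)
  have hlog1 : 0 ≤ Real.log (1 + θ) := Real.log_nonneg (by linarith)
  have hlog2 : Real.log (1 - θ) ≤ 0 := Real.log_nonpos (by linarith) (by linarith)
  have h1 : (P1.card : ℝ) ≤ Real.exp (L1 * l) :=
    tail q b hb (1 + θ) (1 / (q : ℝ) + ε) (by linarith) l P1 (filter_subset _ _) fun w hw =>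
      mul_le_mul_of_nonneg_right (mem_filter.1 hw).2 hlog1
  have h2 : (P2.card : ℝ) ≤ Real.exp (L2 * l) :=
    tail q b hb (1 - θ) (1 / (q : ℝ) - ε) (by linarith) l P2 (filter_subset _ _) fun w hw =>
      mul_le_mul_of_nonpos_right (mem_filter.1 hw).2 hlog2
  have hl : (0 : ℝ) ≤ l := Nat.cast_nonneg l
  have h3 : Real.exp (L1 * l) ≤ Real.exp (L * l) :=
    Real.exp_le_exp.2 (mul_le_mul_of_nonneg_right (le_max_left _ _) hl)
  have h4 : Real.exp (L2 * l) ≤ Real.exp (L * l) :=
    Real.exp_le_exp.2 (mul_le_mul_of_nonneg_right (le_max_right _ _) hl)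
  linarith

end Pool.Agent.H97R3.DG
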